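import Pool.Agent.H26.NO.Targets

/-!
# Board `nok_modules`, row `CO`: few coincidences
-/

set_option autoImplicit false

open Finset Pool.Agent.H26.NO

namespace Pool.Agent.H41.NOK

/-- Few coincidences: union bound over the index. -/
theorem pf_CO (hCJ : T_CJ) : T_CO := by
  classical
  intro r w L M E θ hr hE hθ hL hM hw hd hs
  set A : Fin r → Finset ℕ := fun j => PA (L j) M with hA
  have h1 : co A ≤ ∑ j : Fin r, ∑ a ∈ Fintype.piFinset A,
      ∑ _a' ∈ (Fintype.piFinset A).filter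
        (fun a' => a' j ≠ a j ∧ Qf a' = Qf a ∧ Sg a' = Sg a), (1 : ℝ) / Qf a := by
    rw [Finset.sum_comm]
    unfold co
    refine Finset.sum_le_sum fun a _ => ?_
    have hsub : (Fintype.piFinset A).filter (fun a' => a' ≠ a ∧ Qf a' = Qf a ∧ Sg a' = Sg a) ⊆
        (Finset.univ : Finset (Fin r)).biUnion (fun j => (Fintype.piFinset A).filter
          (fun a' => a' j ≠ a j ∧ Qf a' = Qf a ∧ Sg a' = Sg a)) := by
      intro a' ha'
      rw [Finset.mem_filter] at ha'
      obtain ⟨h0, hne, hq, hg⟩ := ha'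
      obtain ⟨j, hj⟩ := Function.ne_iff.1 hne
      rw [Finset.mem_biUnion]
      exact ⟨j, Finset.mem_univ _, Finset.mem_filter.2 ⟨h0, hj, hq, hg⟩⟩
    have hnn : (0 : ℝ) ≤ 1 / (Qf a : ℝ) := by positivity
    rw [Finset.sum_const, nsmul_eq_mul]
    simp only [Finset.sum_const, nsmul_eq_mul]
    rw [← Finset.sum_mul]
    refine mul_le_mul_of_nonneg_right ?_ hnn
    have hc := (Finset.card_le_card hsub).trans Finset.card_biUnion_le
    exact_mod_cast hc
  have h2 : ∀ j : Fin r, ∑ a ∈ Fintype.piFinset A,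
      ∑ _a' ∈ (Fintype.piFinset A).filter
        (fun a' => a' j ≠ a j ∧ Qf a' = Qf a ∧ Sg a' = Sg a), (1 : ℝ) / Qf a ≤
      ((r : ℝ) * (r : ℝ) ^ (r * (w + 1)) / (E * θ)) * mq A := fun j =>
    hCJ r w L M E θ j hr hE hθ hL hM hw hd hs
  calc co A ≤ _ := h1
    _ ≤ ∑ _j : Fin r, ((r : ℝ) * (r : ℝ) ^ (r * (w + 1)) / (E * θ)) * mq A :=
        Finset.sum_le_sum fun j _ => h2 j
    _ = ((r : ℝ) ^ 2 * (r : ℝ) ^ (r * (w + 1)) / (E * θ)) * mq A := by
        rw [Finset.sum_const, Finset.card_univ, Fintype.card_fin, nsmul_eq_mul]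
        ring

end Pool.Agent.H41.NOK
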